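import Pool.Agent.P.MP_c5a58e_co.Cases

namespace Pool.Agent.Results.MP_c5a58e_co.CatalanLike

open Finset Pool.Agent.P.MP_c5a58e_co

/-- Closed form of the Hankel Pfaffian of a Catalan-like sequence with constant tail. -/
theorem result (R : Type) [CommRing R] [Algebra ℚ R] (b0 b lam u δ : R)
    (hc : (b0 - b) ^ 2 = lam * (δ + 4 * (1 - u))) (m : ℕ) :
    hankelPf 3 (fun n => paths b0 b (u * lam) lam n 0) (m + 1) =
      lam ^ (m * (m + 1)) * u ^ m * ∑ k ∈ range (m + 1),
        (((m + k + 1).choose (2 * k + 1) : R) - (1 - u) * ((m + k).choose (2 * k + 1) : R)) *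
          (1 - u) ^ (m - k) * (∏ t ∈ Ico k m, (4 * (t : R) + 5)) *
          ∑ i ∈ range (k + 1), (k.choose i : R) * (∏ t ∈ range i, (4 * (t : R) + 5)) *
            (∏ t ∈ range (k - i), (4 * (t : R) + 1)) * u ^ (2 * i) * δ ^ (k - i) :=
  main b0 b lam u δ hc m

end Pool.Agent.Results.MP_c5a58e_co.CatalanLike
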