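import Pool.Agent.P.MP_c5a58e_co.Col

namespace Pool.Agent.Results.MP_c5a58e_co.Columns

open Finset Pool.Agent.P.MP_c5a58e_co

/-- Hankel Pfaffians of the columns of the weighted Motzkin triangle. -/
theorem result (R : Type) [CommRing R] [Algebra ℚ R] (b ρ : R) (α β k n : ℕ) (hα : α ≤ 1)
    (hβ : β ≤ 1) (hk : 0 < k) :
    hankelPf 3 ((fun (x : ℕ → R) m => x (m + 1) - (b - 2 * ρ) * x m)^[α]
      ((fun (x : ℕ → R) m => x (m + 1) - (b + 2 * ρ) * x m)^[β]
        fun m => paths b b (ρ ^ 2) (ρ ^ 2) m (k - 1))) n =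
      if n % k = 0 ∨ 2 * (n % k) + (α + β) = k + 1 then
        (-1) ^ (n / k * (k.choose 2 + β * k)) *
          ρ ^ (n / k * k * (2 * (n / k) * k + 4 * (n % k) + (α + β) - k - 1)) *
          (∏ a ∈ range (n % k), (2 * (a : R) + 1)) *
          ∏ i ∈ range (n / k), ∏ j ∈ range k,
            ((4 * k * i + 2 * j + 4 * (n % k) + k + (α + β) : ℕ) : R)
      else 0 :=
  columns b ρ α β k n hα hβ hk

end Pool.Agent.Results.MP_c5a58e_co.Columns
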